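import Mathlib

/-!
Identities in alternative rings: the Jordan derivation property of the associator and the
vanishing of six times a skew-symmetrised associator of Jordan products.
-/

namespace Pool.Agent.V1156.Alt

/-- The Jordan product `a b + b a`. -/
def jo {R : Type*} [NonUnitalNonAssocRing R] (a b : R) : R := a * b + b * a

section
variable {R : Type*} [NonUnitalNonAssocRing R]

theorem jo_add (a b c : R) : jo a (b + c) = jo a b + jo a c := by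
  simp only [jo, mul_add, add_mul]; abel

theorem jo_neg (a b : R) : jo a (-b) = - jo a b := by
  simp only [jo, mul_neg, neg_mul]; abel

theorem as_add_left (a b c d : R) : associator (a + b) c d = associator a c d + associator b c d := by
  simp only [associator, add_mul]; abel

theorem as_add_mid (a b c d : R) : associator c (a + b) d = associator c a d + associator c b d := by
  simp only [associator, add_mul, mul_add]; abel

theorem as_add_right (a b c d : R) : associator c d (a + b) = associator c d a + associator c d b := by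
  simp only [associator, mul_add]; abel

/-- The left and right alternative laws. -/
def IsAlt (R : Type*) [NonUnitalNonAssocRing R] : Prop :=
  ∀ f g : R, associator f f g = 0 ∧ associator g f f = 0

variable (h : IsAlt R)
include h

theorem swap12 (a b c : R) : associator a b c = - associator b a c := by
  have h1 := (h (a + b) c).1
  rw [as_add_left, as_add_mid, as_add_mid, (h a c).1, (h b c).1] at h1
  rw [eq_neg_iff_add_eq_zero]
  simpa using h1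

theorem swap23 (a b c : R) : associator a b c = - associator a c b := by
  have h1 := (h (b + c) a).2
  rw [as_add_mid, as_add_right, as_add_right, (h b a).2, (h c a).2] at h1
  rw [eq_neg_iff_add_eq_zero]
  simpa using h1

theorem swap13 (a b c : R) : associator a b c = - associator c b a := by
  rw [swap12 h a b c, swap23 h b a c, swap12 h b c a, neg_neg]

/-- `(x, y, x z) = (x, y, z) x`. -/
theorem as_mul_right (x y z : R) : associator x y (x * z) = associator x y z * x := by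
  have e3 := associator_cocycle z y x x
  have e4 := associator_cocycle y x x z
  rw [(h x y).2, mul_zero, (h x (z * y)).2] at e3
  rw [(h x z).1, mul_zero, (h x y).2, zero_mul] at e4
  rw [swap13 h z (y * x) x, swap13 h z y (x * x), swap13 h z y x] at e3
  rw [swap12 h (y * x) x z, swap12 h y (x * x) z, swap12 h y x (x * z)] at e4
  have h3 : associator (x * x) y z = associator x (y * x) z + associator x y z * x := by
    rw [← sub_eq_zero, ← e3]; simp only [neg_mul]; abel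
  have h4 : associator (x * x) y z = associator x (y * x) z + associator x y (x * z) := by
    rw [← sub_eq_zero, ← neg_eq_zero, ← e4]; abel
  rw [h3] at h4
  exact (add_left_cancel h4).symm

/-- `(x², y, z) = x (x, y, z) + (x, y, z) x`. -/
theorem sq_as (x y z : R) : associator (x * x) y z = jo x (associator x y z) := by
  have e2 := associator_cocycle x x y z
  rw [(h x y).1, zero_mul, (h x (y * z)).1] at e2
  have e5 := as_mul_right h x z y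
  rw [swap23 h x z (x * y), swap23 h x z y, neg_mul, neg_inj] at e5
  rw [e5] at e2
  rw [jo, ← sub_eq_zero, ← neg_eq_zero, ← e2]; abel

/-- The associator is a derivation of the Jordan product in its first argument. -/
theorem jo_as1 (x w y z : R) :
    associator (jo x w) y z = jo x (associator w y z) + jo w (associator x y z) := by
  have e := sq_as h (x + w) y z
  have e' : (x + w) * (x + w) = x * x + w * w + jo x w := by
    simp only [jo, mul_add, add_mul]; abel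
  rw [e', as_add_left, as_add_left, sq_as h x, sq_as h w, as_add_left] at e
  simp only [jo, mul_add, add_mul] at e ⊢
  rw [← sub_eq_zero] at e ⊢
  rw [← e]; abel

theorem jo_as2 (x w y z : R) :
    associator y (jo x w) z = jo x (associator y w z) + jo w (associator y x z) := by
  rw [swap12 h y, jo_as1 h, swap12 h w, swap12 h x, jo_neg, jo_neg]; abel

theorem jo_as3 (x w y z : R) :
    associator y z (jo x w) = jo x (associator y z w) + jo w (associator y z x) := by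
  rw [swap23 h y, jo_as2 h, swap23 h y w, swap23 h y x, jo_neg, jo_neg]; abel

/-- Nested Jordan products. -/
def G (p q r m : R) : R := jo p (jo q (jo r m))

omit h in
theorem G_neg (p q r m : R) : G p q r (-m) = - G p q r m := by
  simp only [G, jo_neg]

theorem expand (p₁ q₁ p₂ q₂ p₃ q₃ : R) :
    associator (jo p₁ q₁) (jo p₂ q₂) (jo p₃ q₃) =
      G p₁ p₂ p₃ (associator q₁ q₂ q₃) + G q₁ p₂ p₃ (associator p₁ q₂ q₃)
      + G p₁ q₂ p₃ (associator q₁ p₂ q₃) + G p₁ p₂ q₃ (associator q₁ q₂ p₃)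
      + G q₁ q₂ p₃ (associator p₁ p₂ q₃) + G q₁ p₂ q₃ (associator p₁ q₂ p₃)
      + G p₁ q₂ q₃ (associator q₁ p₂ p₃) + G q₁ q₂ q₃ (associator p₁ p₂ p₃) := by
  rw [jo_as1 h]
  simp only [jo_as2 h, jo_as3 h, jo_add, G]
  abel

/-- Symmetrised nested Jordan products. -/
def Sy (p q r m : R) : R :=
  G p q r m + G q r p m + G r p q m + G q p r m + G p r q m + G r q p m

omit h in
theorem Sy_neg (p q r m : R) : Sy p q r (-m) = - Sy p q r m := by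
  simp only [Sy, G_neg]; abel

omit h in
theorem Sy12 (p q r m : R) : Sy p q r m = Sy q p r m := by
  simp only [Sy]; abel

omit h in
theorem Sy23 (p q r m : R) : Sy p q r m = Sy p r q m := by
  simp only [Sy]; abel

theorem rot1 (a b c : R) : associator b c a = associator a b c := by
  rw [swap23 h b c a, swap12 h b a c, neg_neg]

theorem rot2 (a b c : R) : associator c a b = associator a b c := by
  rw [swap12 h c a b, swap23 h a c b, neg_neg]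

theorem tr12 (a b c : R) : associator b a c = - associator a b c := swap12 h b a c

theorem tr23 (a b c : R) : associator a c b = - associator a b c := swap23 h a c b

theorem tr13 (a b c : R) : associator c b a = - associator a b c := swap13 h c b a

theorem six_expand (p₁ q₁ p₂ q₂ p₃ q₃ : R) :
    (6 : ℕ) • associator (jo p₁ q₁) (jo p₂ q₂) (jo p₃ q₃) =
      Sy p₁ p₂ p₃ (associator q₁ q₂ q₃) + Sy q₁ p₂ p₃ (associator p₁ q₂ q₃)
      + Sy p₁ q₂ p₃ (associator q₁ p₂ q₃) + Sy p₁ p₂ q₃ (associator q₁ q₂ p₃)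
      + Sy q₁ q₂ p₃ (associator p₁ p₂ q₃) + Sy q₁ p₂ q₃ (associator p₁ q₂ p₃)
      + Sy p₁ q₂ q₃ (associator q₁ p₂ p₃) + Sy q₁ q₂ q₃ (associator p₁ p₂ p₃) := by
  have e1 : (6 : ℕ) • associator (jo p₁ q₁) (jo p₂ q₂) (jo p₃ q₃) =
      associator (jo p₁ q₁) (jo p₂ q₂) (jo p₃ q₃) + associator (jo p₂ q₂) (jo p₃ q₃) (jo p₁ q₁)
      + associator (jo p₃ q₃) (jo p₁ q₁) (jo p₂ q₂) - associator (jo p₂ q₂) (jo p₁ q₁) (jo p₃ q₃)
      - associator (jo p₁ q₁) (jo p₃ q₃) (jo p₂ q₂)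
      - associator (jo p₃ q₃) (jo p₂ q₂) (jo p₁ q₁) := by
    rw [swap12 h (jo p₂ q₂) (jo p₃ q₃) (jo p₁ q₁), swap13 h (jo p₃ q₃) (jo p₂ q₂) (jo p₁ q₁),
      swap12 h (jo p₃ q₃) (jo p₁ q₁) (jo p₂ q₂), swap23 h (jo p₁ q₁) (jo p₃ q₃) (jo p₂ q₂),
      swap12 h (jo p₂ q₂) (jo p₁ q₁) (jo p₃ q₃)]
    abel
  have E2 := expand h p₂ q₂ p₃ q₃ p₁ q₁
  have E3 := expand h p₃ q₃ p₁ q₁ p₂ q₂
  have E4 := expand h p₂ q₂ p₁ q₁ p₃ q₃
  have E5 := expand h p₁ q₁ p₃ q₃ p₂ q₂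
  have E6 := expand h p₃ q₃ p₂ q₂ p₁ q₁
  rw [rot1 h p₁ p₂ p₃, rot1 h p₁ p₂ q₃, rot1 h p₁ q₂ p₃, rot1 h p₁ q₂ q₃, rot1 h q₁ p₂ p₃,
      rot1 h q₁ p₂ q₃, rot1 h q₁ q₂ p₃, rot1 h q₁ q₂ q₃] at E2
  rw [rot2 h p₁ p₂ p₃, rot2 h p₁ p₂ q₃, rot2 h p₁ q₂ p₃, rot2 h p₁ q₂ q₃, rot2 h q₁ p₂ p₃,
      rot2 h q₁ p₂ q₃, rot2 h q₁ q₂ p₃, rot2 h q₁ q₂ q₃] at E3
  rw [tr12 h p₁ p₂ p₃, tr12 h p₁ p₂ q₃, tr12 h p₁ q₂ p₃, tr12 h p₁ q₂ q₃, tr12 h q₁ p₂ p₃,
      tr12 h q₁ p₂ q₃, tr12 h q₁ q₂ p₃, tr12 h q₁ q₂ q₃] at E4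
  rw [tr23 h p₁ p₂ p₃, tr23 h p₁ p₂ q₃, tr23 h p₁ q₂ p₃, tr23 h p₁ q₂ q₃, tr23 h q₁ p₂ p₃,
      tr23 h q₁ p₂ q₃, tr23 h q₁ q₂ p₃, tr23 h q₁ q₂ q₃] at E5
  rw [tr13 h p₁ p₂ p₃, tr13 h p₁ p₂ q₃, tr13 h p₁ q₂ p₃, tr13 h p₁ q₂ q₃, tr13 h q₁ p₂ p₃,
      tr13 h q₁ p₂ q₃, tr13 h q₁ q₂ p₃, tr13 h q₁ q₂ q₃] at E6
  rw [e1, expand h p₁ q₁ p₂ q₂ p₃ q₃, E2, E3, E4, E5, E6]
  simp only [G_neg, Sy]
  abel

/-- The skew-symmetrised associator of Jordan products. -/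
def tor (a₁ a₂ b₁ b₂ c₁ c₂ : R) : R :=
  associator (jo b₁ c₁) (jo c₂ a₁) (jo a₂ b₂)
  - associator (jo b₁ c₂) (jo c₁ a₁) (jo a₂ b₂)
  - associator (jo b₁ c₁) (jo c₂ a₂) (jo a₁ b₂)
  + associator (jo b₁ c₂) (jo c₁ a₂) (jo a₁ b₂)
  - associator (jo b₂ c₁) (jo c₂ a₁) (jo a₂ b₁)
  + associator (jo b₂ c₂) (jo c₁ a₁) (jo a₂ b₁)
  + associator (jo b₂ c₁) (jo c₂ a₂) (jo a₁ b₁)
  - associator (jo b₂ c₂) (jo c₁ a₂) (jo a₁ b₁)

omit h in
theorem Sy213 (p q r m : R) : Sy q p r m = Sy p q r m := Sy12 q p r m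

omit h in
theorem Sy132 (p q r m : R) : Sy p r q m = Sy p q r m := Sy23 p r q m

omit h in
theorem Sy231 (p q r m : R) : Sy q r p m = Sy p q r m := by rw [Sy132 q p r m, Sy213]

omit h in
theorem Sy312 (p q r m : R) : Sy r p q m = Sy p q r m := by rw [Sy213 p r q m, Sy132]

omit h in
theorem Sy321 (p q r m : R) : Sy r q p m = Sy p q r m := by rw [Sy213 q r p m, Sy231]

theorem six_tor (a₁ a₂ b₁ b₂ c₁ c₂ : R) : (6 : ℕ) • tor a₁ a₂ b₁ b₂ c₁ c₂ = 0 := by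
  rw [tor]
  simp only [nsmul_add, nsmul_sub, six_expand h]
  simp only [rot2 h a₁ a₂ b₁, tr12 h a₁ b₁ b₂, tr13 h a₁ a₂ b₁, tr12 h a₂ b₁ b₂, rot1 h a₁ b₁ c₁,
    rot1 h a₂ b₁ c₁, tr23 h b₁ b₂ c₁, rot1 h a₁ b₁ c₂, rot1 h a₂ b₁ c₂, tr23 h b₁ b₂ c₂,
    rot2 h a₁ a₂ b₂, rot2 h a₁ b₁ b₂, tr13 h a₁ a₂ b₂, rot2 h a₂ b₁ b₂, rot1 h a₁ b₂ c₁,
    rot1 h a₂ b₂ c₁, rot1 h b₁ b₂ c₁, rot1 h a₁ b₂ c₂, rot1 h a₂ b₂ c₂, rot1 h b₁ b₂ c₂,
    rot2 h a₁ a₂ c₁, rot2 h a₁ b₁ c₁, rot2 h a₁ b₂ c₁, tr13 h a₁ a₂ c₁, rot2 h a₂ b₁ c₁,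
    rot2 h a₂ b₂ c₁, rot1 h a₁ c₁ c₂, rot1 h a₂ c₁ c₂, rot1 h b₁ c₁ c₂, rot1 h b₂ c₁ c₂,
    rot2 h a₁ a₂ c₂, rot2 h a₁ b₁ c₂, rot2 h a₁ b₂ c₂, tr13 h a₁ a₂ c₂, rot2 h a₂ b₁ c₂,
    rot2 h a₂ b₂ c₂, tr13 h a₁ c₁ c₂, tr13 h a₂ c₁ c₂, tr13 h b₁ c₁ c₂, tr13 h b₂ c₁ c₂]
  simp only [Sy_neg]
  simp only [Sy312 a₁ a₂ b₁, Sy213 a₁ b₁ b₂, Sy321 a₁ a₂ b₁, Sy213 a₂ b₁ b₂, Sy231 a₁ b₁ c₁,
    Sy231 a₂ b₁ c₁, Sy132 b₁ b₂ c₁, Sy231 a₁ b₁ c₂, Sy231 a₂ b₁ c₂, Sy132 b₁ b₂ c₂,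
    Sy312 a₁ a₂ b₂, Sy312 a₁ b₁ b₂, Sy321 a₁ a₂ b₂, Sy312 a₂ b₁ b₂, Sy231 a₁ b₂ c₁,
    Sy231 a₂ b₂ c₁, Sy231 b₁ b₂ c₁, Sy231 a₁ b₂ c₂, Sy231 a₂ b₂ c₂, Sy231 b₁ b₂ c₂,
    Sy312 a₁ a₂ c₁, Sy312 a₁ b₁ c₁, Sy312 a₁ b₂ c₁, Sy321 a₁ a₂ c₁, Sy312 a₂ b₁ c₁,
    Sy312 a₂ b₂ c₁, Sy231 a₁ c₁ c₂, Sy231 a₂ c₁ c₂, Sy231 b₁ c₁ c₂, Sy231 b₂ c₁ c₂,
    Sy312 a₁ a₂ c₂, Sy312 a₁ b₁ c₂, Sy312 a₁ b₂ c₂, Sy321 a₁ a₂ c₂, Sy312 a₂ b₁ c₂,
    Sy312 a₂ b₂ c₂, Sy321 a₁ c₁ c₂, Sy321 a₂ c₁ c₂, Sy321 b₁ c₁ c₂, Sy321 b₂ c₁ c₂]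
  abel

end
end Pool.Agent.V1156.Alt
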