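import Mathlib
import Pool.Agent.V1156.Alt.Identities

/-!
A commutative nonassociative algebra with twisted product on functions on a finite
commutative group, the Jacobi identity for it, and the 47-dimensional alternative algebra of
characteristic three in which the skew-symmetrised associator does not vanish.
-/

set_option linter.unusedSectionVars false

namespace Pool.Agent.V1156.Alt

open Finset

section general
variable {K : Type*} [CommRing K] {G : Type*} [AddCommGroup G] [Fintype G] [DecidableEq G]

/-- Functions on `G` with the product twisted by `κ`. -/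
def Tw (_κ : G → G → K) : Type _ := G → K

variable {κ : G → G → K}

instance : AddCommGroup (Tw κ) := inferInstanceAs (AddCommGroup (G → K))

instance : Mul (Tw κ) :=
  ⟨fun f g u => ∑ s, ∑ t, if s + t = u then κ s t * f s * g t else 0⟩

theorem Tw.mul_apply (f g : Tw κ) (u : G) :
    (f * g) u = ∑ s, ∑ t, if s + t = u then κ s t * f s * g t else 0 := rfl

theorem Tw.add_apply (f g : Tw κ) (u : G) : (f + g) u = f u + g u := rfl

theorem Tw.zero_apply (u : G) : (0 : Tw κ) u = 0 := rfl

@[ext] theorem Tw.ext {f g : Tw κ} (h : ∀ u, f u = g u) : f = g := funext h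

instance : NonUnitalNonAssocRing (Tw κ) :=
  { (inferInstance : AddCommGroup (Tw κ)), (inferInstance : Mul (Tw κ)) with
    left_distrib := by
      intro f g h
      ext u
      simp only [Tw.mul_apply, Tw.add_apply, ← Finset.sum_add_distrib]
      refine Finset.sum_congr rfl fun s _ => Finset.sum_congr rfl fun t _ => ?_
      split_ifs <;> ring
    right_distrib := by
      intro f g h
      ext u
      simp only [Tw.mul_apply, Tw.add_apply, ← Finset.sum_add_distrib]
      refine Finset.sum_congr rfl fun s _ => Finset.sum_congr rfl fun t _ => ?_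
      split_ifs <;> ring
    zero_mul := by
      intro f
      ext u
      simp [Tw.mul_apply, Tw.zero_apply]
    mul_zero := by
      intro f
      ext u
      simp [Tw.mul_apply, Tw.zero_apply] }

theorem Tw.mul_comm' (hs : ∀ s t, κ s t = κ t s) (f g : Tw κ) : f * g = g * f := by
  ext u
  rw [Tw.mul_apply, Tw.mul_apply, Finset.sum_comm]
  refine Finset.sum_congr rfl fun s _ => Finset.sum_congr rfl fun t _ => ?_
  rw [add_comm t s, hs t s]
  split_ifs <;> ring

theorem Tw.triple (f g h : Tw κ) (u : G) :
    (f * g * h) u = ∑ s, ∑ t, ∑ r,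
      if s + t + r = u then κ s t * κ (s + t) r * (f s * g t * h r) else 0 := by
  have e1 : (f * g * h) u = ∑ r, ∑ v, ∑ s, ∑ t,
      if s + t = v then (if v + r = u then κ s t * κ v r * (f s * g t * h r) else 0) else 0 := by
    rw [Tw.mul_apply, Finset.sum_comm]
    refine Finset.sum_congr rfl fun r _ => Finset.sum_congr rfl fun v _ => ?_
    rw [Tw.mul_apply]
    by_cases hv : v + r = u
    · simp only [hv, if_true, Finset.mul_sum, Finset.sum_mul]
      refine Finset.sum_congr rfl fun s _ => Finset.sum_congr rfl fun t _ => ?_
      split_ifs <;> ring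
    · simp [hv]
  rw [e1]
  have e2 : ∀ r : G, (∑ v, ∑ s, ∑ t,
      if s + t = v then (if v + r = u then κ s t * κ v r * (f s * g t * h r) else 0) else 0) =
      ∑ s, ∑ t, if s + t + r = u then κ s t * κ (s + t) r * (f s * g t * h r) else 0 := by
    intro r
    rw [Finset.sum_comm]
    refine Finset.sum_congr rfl fun s _ => ?_
    rw [Finset.sum_comm]
    refine Finset.sum_congr rfl fun t _ => ?_
    rw [Finset.sum_ite_eq]
    simp
  simp only [e2]
  rw [Finset.sum_comm]
  refine Finset.sum_congr rfl fun s _ => ?_
  rw [Finset.sum_comm]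

theorem Tw.jacobi
    (hJ : ∀ s t r, κ s t * κ (s + t) r + κ t r * κ (t + r) s + κ r s * κ (r + s) t = 0)
    (f g h : Tw κ) : f * g * h + g * h * f + h * f * g = 0 := by
  ext u
  rw [Tw.add_apply, Tw.add_apply, Tw.zero_apply, Tw.triple f g h, Tw.triple g h f,
    Tw.triple h f g]
  -- bring all three to the order `f s, g t, h r`
  have e2 : (∑ s, ∑ t, ∑ r,
      if s + t + r = u then κ s t * κ (s + t) r * (g s * h t * f r) else 0) =
      ∑ s, ∑ t, ∑ r,
      if s + t + r = u then κ t r * κ (t + r) s * (f s * g t * h r) else 0 := by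
    calc _ = ∑ t, ∑ s, ∑ r,
      (if t + r + s = u then κ t r * κ (t + r) s * (g t * h r * f s) else 0) := by
          refine Finset.sum_congr rfl fun a _ => ?_
          rw [Finset.sum_comm]
      _ = _ := by
          rw [Finset.sum_comm]
          refine Finset.sum_congr rfl fun s _ => Finset.sum_congr rfl fun t _ =>
            Finset.sum_congr rfl fun r _ => ?_
          rw [show t + r + s = s + t + r by abel]
          split_ifs <;> ring
  have e3 : (∑ s, ∑ t, ∑ r,
      if s + t + r = u then κ s t * κ (s + t) r * (h s * f t * g r) else 0) =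
      ∑ s, ∑ t, ∑ r,
      if s + t + r = u then κ r s * κ (r + s) t * (f s * g t * h r) else 0 := by
    rw [Finset.sum_comm]
    refine Finset.sum_congr rfl fun s _ => ?_
    rw [Finset.sum_comm]
    refine Finset.sum_congr rfl fun t _ => Finset.sum_congr rfl fun r _ => ?_
    rw [show r + s + t = s + t + r by abel]
    split_ifs <;> ring
  rw [e2, e3, ← Finset.sum_add_distrib, ← Finset.sum_add_distrib]
  refine Finset.sum_eq_zero fun s _ => ?_
  rw [← Finset.sum_add_distrib, ← Finset.sum_add_distrib]
  refine Finset.sum_eq_zero fun t _ => ?_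
  rw [← Finset.sum_add_distrib, ← Finset.sum_add_distrib]
  refine Finset.sum_eq_zero fun r _ => ?_
  split_ifs
  · have := hJ s t r
    linear_combination (f s * g t * h r) * this
  · simp

theorem Tw.isAlt (h3 : (3 : K) = 0) (hs : ∀ s t, κ s t = κ t s)
    (hJ : ∀ s t r, κ s t * κ (s + t) r + κ t r * κ (t + r) s + κ r s * κ (r + s) t = 0) :
    IsAlt (Tw κ) := by
  intro f g
  have h1 := Tw.jacobi hJ f f g
  have hc := Tw.mul_comm' hs
  rw [hc (f * g) f, hc g f, hc (f * g) f] at h1
  have h3' : f * (f * g) + f * (f * g) + f * (f * g) = 0 := by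
    ext u
    simp only [Tw.add_apply, Tw.zero_apply]
    linear_combination ((f * (f * g)) u) * h3
  have key : f * f * g - f * (f * g) = 0 := by
    have : f * f * g - f * (f * g) =
      (f * f * g + f * (f * g) + f * (f * g)) - (f * (f * g) + f * (f * g) + f * (f * g)) := by
      abel
    rw [this, h1, h3', sub_zero]
  refine ⟨by rw [associator]; exact key, ?_⟩
  rw [associator, hc (g * f) f, hc g f, hc g (f * f), ← neg_sub, key, neg_zero]

/-- Basis vectors. -/
def Tw.sg (κ : G → G → K) (s : G) (a : K) : Tw κ := fun u => if u = s then a else 0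

theorem Tw.sg_mul (s t : G) (a b : K) :
    Tw.sg κ s a * Tw.sg κ t b = Tw.sg κ (s + t) (κ s t * a * b) := by
  ext u
  rw [Tw.mul_apply]
  simp only [Tw.sg]
  rw [Finset.sum_eq_single s, Finset.sum_eq_single t]
  · simp [eq_comm]
  · intro b _ hb; simp [hb]
  · simp
  · intro b _ hb; simp [hb]
  · simp

theorem Tw.sg_add (s : G) (a b : K) : Tw.sg κ s a + Tw.sg κ s b = Tw.sg κ s (a + b) := by
  ext u
  rw [Tw.add_apply]
  simp only [Tw.sg]
  split_ifs <;> simp

theorem Tw.sg_neg (s : G) (a : K) : - Tw.sg κ s a = Tw.sg κ s (-a) := by
  rw [neg_eq_iff_add_eq_zero, Tw.sg_add, add_neg_cancel]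
  ext u
  simp [Tw.sg, Tw.zero_apply]

theorem Tw.sg_sub (s : G) (a b : K) : Tw.sg κ s a - Tw.sg κ s b = Tw.sg κ s (a - b) := by
  rw [sub_eq_add_neg, Tw.sg_neg, Tw.sg_add, sub_eq_add_neg]

/-- The module structure over any ring over which the coefficients form an algebra. -/
instance {Φ : Type*} [CommRing Φ] [Algebra Φ K] : Module Φ (Tw κ) :=
  inferInstanceAs (Module Φ (G → K))

theorem Tw.smul_apply {Φ : Type*} [CommRing Φ] [Algebra Φ K] (c : Φ) (f : Tw κ) (u : G) :
    (c • f) u = c • f u := rfl

instance {Φ : Type*} [CommRing Φ] [Algebra Φ K] : IsScalarTower Φ (Tw κ) (Tw κ) :=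
  ⟨fun c f g => by
    ext u
    simp only [smul_eq_mul, Tw.mul_apply, Tw.smul_apply, Finset.smul_sum]
    refine Finset.sum_congr rfl fun s _ => Finset.sum_congr rfl fun t _ => ?_
    split_ifs
    · simp only [Algebra.smul_def]; ring
    · simp⟩

instance {Φ : Type*} [CommRing Φ] [Algebra Φ K] : SMulCommClass Φ (Tw κ) (Tw κ) :=
  ⟨fun c f g => by
    ext u
    simp only [smul_eq_mul, Tw.mul_apply, Tw.smul_apply, Finset.smul_sum]
    refine Finset.sum_congr rfl fun s _ => Finset.sum_congr rfl fun t _ => ?_
    split_ifs
    · simp only [Algebra.smul_def]; ring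
    · simp⟩

end general

/-- The structure constants, packed in base four. -/
def table : ℕ := 376795390014571623862150401002004084364627287084479788923944481198280827644291766888658313733755533318681281396697125841684039513587843472037551759772390588605011764714066948337317509634981994376564591511898250145389161132505758001609488135164190064220248518575034201210565449151165840181894717256353001170241273540455552330734057843229959376485454537066973552191467237877820496760038180657974993544487880308038678041636236531456363405511644585765079896493092652286405467218027743043419250408583197415010693432460307278988573963704588316339736377644162168853849686744026874437821634003218528198372257025371386685307528341236808104641519009260197213749987420656636925854710404242433984564892220642444005393959641774676603828188785097479514509085702471718509650140705177091860825876904570453933271661571101521787822756555334568724258155781693339567663744883324202618447786360889457740134504564036818077519720893325763680783665123897424187211388232682665198878295405690435777247358929111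75837108036850137163324153968821135812362227580414951807974637090263301155089258390590986525341348530076828817268672143094191746013240649034172590780375235351131730077531612147786757032878500445094492705910865507287240396764159428041619318572688707296976029867557598094690581181483280864286739103288893561746944974134186497826701702517131305001815733741049758534331187756964135141781475487800060641271194442240788662809333759301717874268821766085072993806871237286029697620982109481795925476413521402479931462728609067868084492920445590488064667150331573827936052711717543996418384743797636369631245636898445457121933368050642948251192906091095526484821619615305822228587154839850486877341923703467477244986143238864881232278299104455063618435958995597506889732981958889124866351576274034972700754950086693754706617129950714592058734339267762957085938406391050636317718869404306350687397370858149486699684813602857443851330134469625970671617081178966911750043519241588642455696000299185714157046674763710600830036283332298763197044357852053919405452132037622551376063933979670864394144370215050186219005232218628369278928060638177713551481012666938627308639306147196815960710068600743043714170655312665090278190390751393089431779578408593224961924872080910705527662062609414285437169564302552729940512268939359312733752238185042953569519113517082696472017626913574457687079329701936729531962869505190789120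

/-- The structure constants of the model (natural numbers `0`, `1`, `2`). -/
def kap (s t : Fin 64) : ℕ := table / 4 ^ (64 * s.val + t.val) % 4

/-- The cyclic sum. -/
def jac (s t r : Fin 64) : ℕ :=
  kap s t * kap (s + t) r + kap t r * kap (t + r) s + kap r s * kap (r + s) t

theorem kap_symm : ∀ s t : Fin 64, kap s t = kap t s := by decide +kernel

theorem jac_aux : ∀ s t : Fin 64, kap s t ≠ 0 → ∀ r : Fin 64, kap (s + t) r ≠ 0 →
    jac s t r % 3 = 0 := by decide +kernel

theorem jac_rot (s t r : Fin 64) : jac s t r = jac t r s := by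
  unfold jac; ring

theorem jac_zero (s t r : Fin 64) : jac s t r % 3 = 0 := by
  by_cases h1 : kap s t ≠ 0 ∧ kap (s + t) r ≠ 0
  · exact jac_aux s t h1.1 r h1.2
  by_cases h2 : kap t r ≠ 0 ∧ kap (t + r) s ≠ 0
  · rw [jac_rot]; exact jac_aux t r h2.1 s h2.2
  by_cases h3 : kap r s ≠ 0 ∧ kap (r + s) t ≠ 0
  · rw [jac_rot, jac_rot]; exact jac_aux r s h3.1 t h3.2
  have e : ∀ a b : ℕ, ¬ (a ≠ 0 ∧ b ≠ 0) → a * b = 0 := by
    intro a b h
    by_contra hc
    exact h ⟨left_ne_zero_of_mul hc, right_ne_zero_of_mul hc⟩
  unfold jac
  rw [e _ _ h1, e _ _ h2, e _ _ h3]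

section eval
variable {K : Type*} [CommRing K]

/-- The structure constants in the ring `K`. -/
def kK (K : Type*) [CommRing K] (s t : Fin 64) : K := (kap s t : K)

theorem model_isAlt (h3 : (3 : K) = 0) : IsAlt (Tw (kK K)) := by
  refine Tw.isAlt h3 (fun s t => by rw [kK, kK, kap_symm]) fun s t r => ?_
  have h := jac_zero s t r
  obtain ⟨q, hq⟩ := Nat.dvd_of_mod_eq_zero h
  have h' : ((jac s t r : ℕ) : K) = 0 := by
    rw [hq, Nat.cast_mul]
    have : ((3 : ℕ) : K) = 0 := by exact_mod_cast h3
    rw [this, zero_mul]
  rw [jac] at h'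
  push_cast at h'
  simpa only [kK] using h'

theorem jo_sg (s t : Fin 64) (a b : K) :
    jo (Tw.sg (kK K) s a) (Tw.sg (kK K) t b) =
      Tw.sg (kK K) (s + t) (((kap s t + kap t s : ℤ) : K) * a * b) := by
  rw [jo, Tw.sg_mul, Tw.sg_mul, add_comm t s, Tw.sg_add]
  congr 1
  simp only [kK]
  push_cast
  ring

theorem as_sg (s t r : Fin 64) (a b c : K) :
    associator (Tw.sg (kK K) s a) (Tw.sg (kK K) t b) (Tw.sg (kK K) r c) =
      Tw.sg (kK K) (s + t + r)
        (((kap s t * kap (s + t) r - kap t r * kap s (t + r) : ℤ) : K) * a * b * c) := by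
  rw [associator, Tw.sg_mul, Tw.sg_mul, Tw.sg_mul, Tw.sg_mul, ← add_assoc, Tw.sg_sub]
  congr 1
  simp only [kK]
  push_cast
  ring

/-- The integer by which an associator of Jordan products of basis vectors is scaled. -/
def c6 (s t p q x y : Fin 64) : ℤ :=
  (kap (s + t) (p + q) * kap (s + t + (p + q)) (x + y)
    - kap (p + q) (x + y) * kap (s + t) (p + q + (x + y)))
  * (kap s t + kap t s) * (kap p q + kap q p) * (kap x y + kap y x)

theorem as6 (s t p q x y : Fin 64) :
    associator (jo (Tw.sg (kK K) s 1) (Tw.sg (kK K) t 1))
      (jo (Tw.sg (kK K) p 1) (Tw.sg (kK K) q 1)) (jo (Tw.sg (kK K) x 1) (Tw.sg (kK K) y 1)) =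
      Tw.sg (kK K) (s + t + (p + q) + (x + y)) ((c6 s t p q x y : ℤ) : K) := by
  rw [jo_sg, jo_sg, jo_sg, as_sg]
  congr 1
  rw [c6]
  push_cast
  ring

theorem c6_total :
    (c6 4 16 32 1 2 8 - c6 4 32 16 1 2 8 - c6 4 16 32 2 1 8 + c6 4 32 16 2 1 8
      - c6 8 16 32 1 2 4 + c6 8 32 16 1 2 4 + c6 8 16 32 2 1 4 - c6 8 32 16 2 1 4) % 3 = 1 := by
  decide +kernel

theorem tor_model (h3 : (3 : K) = 0) :
    tor (Tw.sg (kK K) 1 1) (Tw.sg (kK K) 2 1) (Tw.sg (kK K) 4 1) (Tw.sg (kK K) 8 1)
      (Tw.sg (kK K) 16 1) (Tw.sg (kK K) 32 1) = Tw.sg (kK K) 63 1 := by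
  rw [tor]
  simp only [as6]
  rw [show (4 + 16 + (32 + 1) + (2 + 8) : Fin 64) = 63 from by decide,
    show (4 + 32 + (16 + 1) + (2 + 8) : Fin 64) = 63 from by decide,
    show (4 + 16 + (32 + 2) + (1 + 8) : Fin 64) = 63 from by decide,
    show (4 + 32 + (16 + 2) + (1 + 8) : Fin 64) = 63 from by decide,
    show (8 + 16 + (32 + 1) + (2 + 4) : Fin 64) = 63 from by decide,
    show (8 + 32 + (16 + 1) + (2 + 4) : Fin 64) = 63 from by decide,
    show (8 + 16 + (32 + 2) + (1 + 4) : Fin 64) = 63 from by decide,
    show (8 + 32 + (16 + 2) + (1 + 4) : Fin 64) = 63 from by decide]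
  simp only [Tw.sg_add, Tw.sg_sub]
  congr 1
  have h := c6_total
  generalize c6 4 16 32 1 2 8 = z1 at *
  generalize c6 4 32 16 1 2 8 = z2 at *
  generalize c6 4 16 32 2 1 8 = z3 at *
  generalize c6 4 32 16 2 1 8 = z4 at *
  generalize c6 8 16 32 1 2 4 = z5 at *
  generalize c6 8 32 16 1 2 4 = z6 at *
  generalize c6 8 16 32 2 1 4 = z7 at *
  generalize c6 8 32 16 2 1 4 = z8 at *
  obtain ⟨m, hm⟩ : ∃ m : ℤ, z1 - z2 - z3 + z4 - z5 + z6 + z7 - z8 = 3 * m + 1 :=
    ⟨(z1 - z2 - z3 + z4 - z5 + z6 + z7 - z8) / 3, by omega⟩
  have hc := congrArg (fun z : ℤ => (z : K)) hm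
  push_cast at hc
  rw [hc, h3, zero_mul, zero_add]

end eval

end Pool.Agent.V1156.Alt
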